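import Mathlib

namespace Pool.Agent.Results.MP_0523aa_nt.Full

open Polynomial Finset

def Ht (f : ℤ[X]) (k : ℤ) : Prop := ∀ i, |f.coeff i| ≤ k

lemma key (q : ℕ) (hq : 0 < q) (c : ℕ → ℤ[X]) (h : ℤ[X]) (k : ℤ)
    (hc : ∀ r < q, Ht (c r * h) k) :
    Ht ((∑ r ∈ range q, X ^ r * expand ℤ q (c r)) * expand ℤ q h) k := by
  intro i
  rw [sum_mul, finset_sum_coeff, sum_eq_single (i % q)]
  · rw [mul_assoc, ← map_mul, coeff_X_pow_mul', if_pos (Nat.mod_le i q), coeff_expand hq,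
      if_pos (Nat.dvd_sub_mod i)]
    exact hc _ (Nat.mod_lt i hq) _
  · intro r hr hne
    rw [mul_assoc, ← map_mul, coeff_X_pow_mul']
    split_ifs with h1
    · rw [coeff_expand hq, if_neg]
      rintro ⟨j, hj⟩
      apply hne
      have e : i = r + q * j := by omega
      rw [e, Nat.add_mul_mod_self_left, Nat.mod_eq_of_lt (mem_range.1 hr)]
    · rfl
  · intro h1
    exact absurd (mem_range.2 (Nat.mod_lt i hq)) h1

lemma htC (a : ℤ) (h : ℤ[X]) (m k : ℤ) (ha : |a| ≤ m) (hh : Ht h k) : Ht (C a * h) (m * k) := by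
  intro i
  rw [coeff_C_mul, abs_mul]
  exact mul_le_mul ha (hh i) (abs_nonneg _) ((abs_nonneg _).trans ha)

lemma small (q : ℕ) (w h : ℤ[X]) (k : ℤ) (hw : w.natDegree < q) (h1 : Ht w 1) (hh : Ht h k) :
    Ht (w * expand ℤ q h) k := by
  have e : w = ∑ r ∈ range q, X ^ r * expand ℤ q (C (w.coeff r)) := by
    conv_lhs => rw [as_sum_range' w q hw]
    refine sum_congr rfl fun r _ => ?_
    rw [expand_C, ← C_mul_X_pow_eq_monomial, mul_comm]
  rw [e]
  refine key q (by omega) _ h k fun r _ => ?_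
  simpa using htC _ h 1 k (h1 r) hh

lemma s1 (m : ℕ) (Y : ℤ[X]) : (X ^ 2 - 1) * ∑ r ∈ range (2 * m + 1), X ^ r * (if r % 2 = 0 then 1 else Y)
    = X ^ (2 * m + 2) - 1 + Y * (X ^ (2 * m + 1) - X) := by
  induction m with
  | zero => simp
  | succ m ih =>
    rw [show 2 * (m + 1) + 1 = 2 * m + 1 + 1 + 1 by ring, sum_range_succ, sum_range_succ, mul_add, mul_add, ih,
      if_neg (by omega), if_pos (by omega)]
    ring

lemma s2 (n : ℕ) (Y : ℤ[X]) : (X - 1) * ∑ r ∈ range (n + 1), X ^ r * (if r = 0 then Y else C 2)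
    = (X - 1) * Y + 2 * (X ^ (n + 1) - X) := by
  induction n with
  | zero => simp
  | succ n ih =>
    rw [sum_range_succ, mul_add, ih, if_neg (by omega), show (C 2 : ℤ[X]) = 2 from rfl]
    ring

lemma s3 (n : ℕ) (Y : ℤ[X]) :
    (X + 1) * ∑ r ∈ range (n + 1), X ^ r * (if r = 0 then Y else C (-2 * (-1) ^ r))
    = (X + 1) * Y - 2 * ((-1) ^ n * X ^ (n + 1) - X) := by
  induction n with
  | zero => simp
  | succ n ih =>
    rw [sum_range_succ, mul_add, ih, if_neg (by omega)]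
    simp only [map_mul, map_neg, map_pow, map_one, show (C 2 : ℤ[X]) = 2 from rfl]
    ring

lemma s4 (n : ℕ) : (X + 1) * ∑ r ∈ range n, (X : ℤ[X]) ^ r * C ((-1) ^ r) = 1 - (-1) ^ n * X ^ n := by
  induction n with
  | zero => simp
  | succ n ih =>
    rw [sum_range_succ, mul_add, ih]
    simp only [map_neg, map_pow, map_one]
    ring

lemma n1 : (X - 1 : ℤ[X]) ≠ 0 := X_sub_C_ne_zero 1
lemma n2 : (X + 1 : ℤ[X]) ≠ 0 := X_add_C_ne_zero 1

/-- the invariant carried through the induction -/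
def Inv (h : ℤ[X]) : Prop :=
  Ht h 1 ∧ Ht ((X - 1) * h) 2 ∧ Ht ((X + 1) * h) 2 ∧ Ht ((X - 1) * (X + 1) * h) 2

lemma t0 : Ht 1 1 := by
  intro i; rw [coeff_one]; split_ifs <;> simp
lemma t1 : Ht (X - 1) 1 := by
  intro i; rw [coeff_sub, coeff_one, coeff_X]; split_ifs <;> simp
lemma t2 : Ht (X + 1) 1 := by
  intro i; rw [coeff_add, coeff_one, coeff_X]; split_ifs <;> simp <;> omega
lemma t3 : Ht ((X - 1) * (X + 1)) 1 := by
  intro i
  rw [show ((X - 1) * (X + 1) : ℤ[X]) = X ^ 2 - 1 by ring, coeff_sub, coeff_one, coeff_X_pow]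
  split_ifs <;> simp
lemma up {h : ℤ[X]} (a : Ht h 1) : Ht h 2 := fun i => (a i).trans (by norm_num)

lemma step (m : ℕ) (hm : 1 ≤ m) (A B h : ℤ[X]) (hA : (X - 1) * A = X ^ (2 * m + 1) - 1)
    (hB : (X + 1) * B = X ^ (2 * m + 1) + 1) (hh : Inv h) (a b : ℤ[X]) (ha : a = 1 ∨ a = A)
    (hb : b = 1 ∨ b = B) : Inv (a * b * expand ℤ (2 * m + 1) h) := by
  obtain ⟨h0, h1, h2, h3⟩ := hh
  set q := 2 * m + 1 with hq
  have q0 : 0 < q := by omega
  have hodd : ((-1 : ℤ[X])) ^ q = -1 := Odd.neg_one_pow ⟨m, hq⟩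
  have hev : ((-1 : ℤ[X])) ^ (2 * m) = 1 := Even.neg_one_pow ⟨m, by ring⟩
  have eA : A = ∑ r ∈ range q, X ^ r * expand ℤ q 1 := by
    apply mul_left_cancel₀ n1
    simp only [map_one, mul_one]
    rw [hA, mul_geom_sum]
  have eB : B = ∑ r ∈ range q, X ^ r * expand ℤ q (C ((-1) ^ r)) := by
    apply mul_left_cancel₀ n2
    simp only [expand_C]
    rw [hB, s4, hodd]; ring
  have eAB : A * B = ∑ r ∈ range q, X ^ r * expand ℤ q (if r % 2 = 0 then 1 else X) := by
    apply mul_left_cancel₀ (mul_ne_zero n1 n2)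
    simp only [apply_ite (expand ℤ q), map_one, expand_X]
    have e := s1 m (X ^ q)
    rw [show ((X - 1) * (X + 1) : ℤ[X]) * (A * B) = ((X - 1) * A) * ((X + 1) * B) by ring, hA, hB,
      show ((X - 1) * (X + 1) : ℤ[X]) = X ^ 2 - 1 by ring, e, hq]
    ring
  have eA2 : (X + 1) * A = ∑ r ∈ range q, X ^ r * expand ℤ q (if r = 0 then X + 1 else C 2) := by
    apply mul_left_cancel₀ n1
    simp only [apply_ite (expand ℤ q), map_one, expand_X, expand_C, map_add]
    have e := s2 (2 * m) (X ^ q + 1)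
    rw [show (X - 1 : ℤ[X]) * ((X + 1) * A) = (X + 1) * ((X - 1) * A) by ring, hA, e, hq]
    ring
  have eB2 : (X - 1) * B =
      ∑ r ∈ range q, X ^ r * expand ℤ q (if r = 0 then X - 1 else C (-2 * (-1) ^ r)) := by
    apply mul_left_cancel₀ n2
    simp only [apply_ite (expand ℤ q), map_one, expand_X, expand_C, map_sub]
    have e := s3 (2 * m) (X ^ q - 1)
    rw [show (X + 1 : ℤ[X]) * ((X - 1) * B) = (X - 1) * ((X + 1) * B) by ring, hB, e, hev, hq]
    ring
  have d0 : (1 : ℤ[X]).natDegree < q := by simpa using q0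
  have d1 : (X - 1 : ℤ[X]).natDegree < q := lt_of_le_of_lt (by compute_degree : _ ≤ 1) (by omega)
  have d2 : (X + 1 : ℤ[X]).natDegree < q := lt_of_le_of_lt (by compute_degree : _ ≤ 1) (by omega)
  have d3 : ((X - 1) * (X + 1) : ℤ[X]).natDegree < q :=
    lt_of_le_of_lt (by compute_degree : _ ≤ 2) (by omega)
  have kA : ∀ g k, Ht g k → Ht (A * expand ℤ q g) k := fun g k hg => by
    rw [eA]; exact key q q0 _ g k fun r _ => by simpa using hg
  have kB : ∀ g k, Ht g k → Ht (B * expand ℤ q g) k := fun g k hg => by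
    rw [eB]
    refine key q q0 _ g k fun r _ => ?_
    have := htC ((-1) ^ r) g 1 k (by simp) hg
    rwa [one_mul] at this
  have x1 : expand ℤ q ((X - 1) * h) = (X - 1) * A * expand ℤ q h := by
    rw [hA]; simp
  have x2 : expand ℤ q ((X + 1) * h) = (X + 1) * B * expand ℤ q h := by
    rw [hB]; simp
  have x3 : expand ℤ q ((X - 1) * (X + 1) * h) = (X - 1) * A * ((X + 1) * B) * expand ℤ q h := by
    rw [hA, hB]; simp
  rcases ha with rfl | rfl <;> rcases hb with rfl | rfl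
  · refine ⟨?_, ?_, ?_, ?_⟩
    · convert small q _ h 1 d0 t0 h0 using 1; ring
    · convert up (small q _ h 1 d1 t1 h0) using 1; ring
    · convert up (small q _ h 1 d2 t2 h0) using 1; ring
    · convert up (small q _ h 1 d3 t3 h0) using 1; ring
  · refine ⟨?_, ?_, ?_, ?_⟩
    · convert kB h 1 h0 using 1; ring
    · rw [one_mul, ← mul_assoc, eB2]
      refine key q q0 _ h 2 fun r _ => ?_
      split_ifs
      · exact h1
      · have := htC (-2 * (-1) ^ r) h 2 1 (by simp [abs_mul]) h0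
        rwa [mul_one] at this
    · convert small q _ _ 2 d0 t0 h2 using 1; rw [x2]; ring
    · convert small q _ _ 2 d1 t1 h2 using 1; rw [x2]; ring
  · refine ⟨?_, ?_, ?_, ?_⟩
    · convert kA h 1 h0 using 1; ring
    · convert small q _ _ 2 d0 t0 h1 using 1; rw [x1]; ring
    · rw [mul_one, ← mul_assoc, eA2]
      refine key q q0 _ h 2 fun r _ => ?_
      split_ifs
      · exact h2
      · have := htC 2 h 2 1 (by simp) h0
        rwa [mul_one] at this
    · convert small q _ _ 2 d2 t2 h1 using 1; rw [x1]; ring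
  · refine ⟨?_, ?_, ?_, ?_⟩
    · rw [eAB]
      refine key q q0 _ h 1 fun r _ => ?_
      split_ifs
      · simpa using h0
      · intro i
        cases i with
        | zero => simp
        | succ i => rw [coeff_X_mul]; exact h0 i
    · convert kB _ 2 h1 using 1; rw [x1]; ring
    · convert kA _ 2 h2 using 1; rw [x2]; ring
    · convert small q _ _ 2 d0 t0 h3 using 1; rw [x3]; ring

noncomputable def F (q b : ℕ) (s t : ℕ → Bool) : ℤ[X] :=
  ∏ i ∈ range b, ((if s i then cyclotomic (q ^ (i + 1)) ℤ else 1) *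
    (if t i then cyclotomic (2 * q ^ (i + 1)) ℤ else 1))

lemma ex1 (q i : ℕ) (hq : q.Prime) :
    expand ℤ q (cyclotomic (q ^ (i + 1)) ℤ) = cyclotomic (q ^ (i + 1 + 1)) ℤ := by
  rw [cyclotomic_expand_eq_cyclotomic hq (dvd_pow_self q (by omega)), ← pow_succ]

lemma ex2 (q i : ℕ) (hq : q.Prime) :
    expand ℤ q (cyclotomic (2 * q ^ (i + 1)) ℤ) = cyclotomic (2 * q ^ (i + 1 + 1)) ℤ := by
  rw [cyclotomic_expand_eq_cyclotomic hq ((dvd_pow_self q (by omega)).mul_left 2), mul_assoc, ← pow_succ]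

lemma cA (q b : ℕ) (hq : q.Prime) :
    (X ^ q ^ b - 1) * cyclotomic (q ^ (b + 1)) ℤ = X ^ q ^ (b + 1) - 1 := by
  haveI := Fact.mk hq
  rw [mul_comm, cyclotomic_prime_pow_mul_X_pow_sub_one]

lemma cB (q b : ℕ) (hq : q.Prime) (h2 : q ≠ 2) :
    (X ^ q ^ b + 1) * cyclotomic (2 * q ^ (b + 1)) ℤ = X ^ q ^ (b + 1) + 1 := by
  induction b with
  | zero =>
    have h : ¬ q ∣ 2 := fun h => h2 ((Nat.prime_dvd_prime_iff_eq hq Nat.prime_two).1 h)
    have e := cyclotomic_expand_eq_cyclotomic_mul hq h ℤ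
    rw [cyclotomic_two] at e
    simp only [map_add, expand_X, map_one] at e
    simp only [pow_zero, pow_one, zero_add]
    rw [mul_comm, e]
  | succ b ih =>
    have e := congrArg (expand ℤ q) ih
    rw [map_mul, ex2 q b hq] at e
    simp only [map_add, map_pow, expand_X, map_one, ← pow_mul, ← pow_succ'] at e
    exact e

lemma inv (q : ℕ) (hq : q.Prime) (h2 : q ≠ 2) (b : ℕ) : ∀ s t, Inv (F q b s t) := by
  obtain ⟨m, rfl⟩ := hq.odd_of_ne_two h2
  have hm : 1 ≤ m := by have := hq.two_le; omega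
  induction b with
  | zero =>
    intro s t
    simp only [F, range_zero, prod_empty, Inv, mul_one]
    exact ⟨t0, up t1, up t2, up t3⟩
  | succ b ih =>
    intro s t
    have e : F (2 * m + 1) (b + 1) s t = (if s 0 then cyclotomic ((2 * m + 1) ^ (0 + 1)) ℤ else 1) *
        (if t 0 then cyclotomic (2 * (2 * m + 1) ^ (0 + 1)) ℤ else 1) *
        expand ℤ (2 * m + 1) (F (2 * m + 1) b (fun i => s (i + 1)) (fun i => t (i + 1))) := by
      rw [F, F, prod_range_succ', mul_comm, map_prod]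
      congr 1
      refine prod_congr rfl fun i _ => ?_
      simp only [map_mul, apply_ite (expand ℤ (2 * m + 1)), map_one, ex1 _ i hq, ex2 _ i hq]
    rw [e]
    refine step m hm (cyclotomic ((2 * m + 1) ^ (0 + 1)) ℤ) (cyclotomic (2 * (2 * m + 1) ^ (0 + 1)) ℤ) _
      ?_ ?_ (ih _ _) _ _ ?_ ?_
    · simpa using cA _ 0 hq
    · simpa using cB _ 0 hq h2
    · split_ifs <;> simp
    · split_ifs <;> simp

lemma split {f a p : ℤ[X]} (hp : Prime p) (h : f ∣ a * p) :
    ∃ (g : ℤ[X]) (v : Bool), g ∣ a ∧ f = g * (if v then p else 1) := by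
  rw [mul_comm] at h
  rcases hp.left_dvd_or_dvd_right_of_dvd_mul h with ⟨g, rfl⟩ | h1
  · exact ⟨g, true, (mul_dvd_mul_iff_left hp.ne_zero).1 h, by simp [mul_comm]⟩
  · exact ⟨f, false, h1, by simp⟩

lemma dec (q : ℕ) (hq : q.Prime) (h2 : q ≠ 2) (b : ℕ) : ∀ f : ℤ[X], f ∣ X ^ (2 * q ^ b) - 1 →
    ∃ g s t, g ∣ (X - 1) * (X + 1) ∧ f = g * F q b s t := by
  induction b with
  | zero =>
    intro f hf
    refine ⟨f, fun _ => true, fun _ => true, ?_, by simp [F]⟩
    convert hf using 1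
    ring
  | succ b ih =>
    intro f hf
    have e : (X ^ (2 * q ^ (b + 1)) - 1 : ℤ[X]) = (X ^ (2 * q ^ b) - 1) * cyclotomic (q ^ (b + 1)) ℤ *
        cyclotomic (2 * q ^ (b + 1)) ℤ := by
      have e1 : (X ^ (2 * q ^ (b + 1)) - 1 : ℤ[X]) = (X ^ q ^ (b + 1) - 1) * (X ^ q ^ (b + 1) + 1) := by
        rw [mul_comm 2, pow_mul]; ring
      have e2 : (X ^ (2 * q ^ b) - 1 : ℤ[X]) = (X ^ q ^ b - 1) * (X ^ q ^ b + 1) := by
        rw [mul_comm 2, pow_mul]; ring
      rw [e1, e2, ← cA q b hq, ← cB q b hq h2]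
      exact mul_mul_mul_comm _ _ _ _ |>.trans (mul_assoc _ _ _).symm
    rw [e] at hf
    have p0 : 0 < q ^ (b + 1) := pow_pos hq.pos _
    obtain ⟨f1, w, h1, rfl⟩ := split (cyclotomic.irreducible (by omega)).prime hf
    obtain ⟨f2, v, h3, rfl⟩ := split (cyclotomic.irreducible p0).prime h1
    obtain ⟨g, s, t, h4, rfl⟩ := ih f2 h3
    refine ⟨g, Function.update s b v, Function.update t b w, h4, ?_⟩
    rw [F, F, prod_range_succ, Function.update_self, Function.update_self, mul_assoc, mul_assoc]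
    congr 2
    refine prod_congr rfl fun i hi => ?_
    have hi' : i ≠ b := (mem_range.1 hi).ne
    rw [Function.update_of_ne hi', Function.update_of_ne hi']

theorem result (q b : ℕ) (hq : q.Prime) (h2 : q ≠ 2) (hb : 1 ≤ b) :
    IsGreatest {k : ℤ | ∃ f : ℤ[X], f ∣ X ^ (2 * q ^ b) - 1 ∧ ∃ i : ℕ, k = |f.coeff i|} 2 := by
  constructor
  · refine ⟨(X + 1) * cyclotomic q ℤ, ?_, 1, ?_⟩
    · have e1 := cA q 0 hq
      have e2 := cB q 0 hq h2
      simp only [pow_zero, pow_one, zero_add] at e1 e2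
      have d1 : (X + 1) * cyclotomic q ℤ ∣ (X ^ (2 * q) - 1 : ℤ[X]) := by
        refine ⟨(X - 1) * cyclotomic (2 * q) ℤ, ?_⟩
        rw [show (X ^ (2 * q) - 1 : ℤ[X]) = (X ^ q - 1) * (X ^ q + 1) by rw [mul_comm 2, pow_mul]; ring,
          ← e1, ← e2]
        ring
      obtain ⟨c, hc⟩ : 2 * q ∣ 2 * q ^ b := Nat.mul_dvd_mul_left 2 (dvd_pow_self q (by omega))
      refine d1.trans ?_
      rw [hc, pow_mul _ (2 * q) c]
      simpa using sub_dvd_pow_sub_pow ((X : ℤ[X]) ^ (2 * q)) 1 c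
    · haveI := Fact.mk hq
      have h1 := hq.two_le
      rw [cyclotomic_prime, add_mul, one_mul, coeff_add, coeff_X_mul]
      simp only [finset_sum_coeff, coeff_X_pow, sum_ite_eq, mem_range]
      rw [if_pos (by omega), if_pos (by omega)]
      norm_num
  · rintro k ⟨f, hf, i, rfl⟩
    obtain ⟨g, s, t, hg, rfl⟩ := dec q hq h2 b f hf
    obtain ⟨h0, h1, h3, h4⟩ := inv q hq h2 b s t
    have p1 : Prime (X - 1 : ℤ[X]) := prime_X_sub_C 1
    have p2 : Prime (X + 1 : ℤ[X]) := by simpa using prime_X_sub_C (-1 : ℤ)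
    obtain ⟨g1, w, a1, rfl⟩ := split p2 hg
    obtain ⟨g2, v, a2, rfl⟩ := split (a := 1) p1 (by simpa using a1)
    obtain ⟨r, hr, rfl⟩ := isUnit_iff.1 (isUnit_of_dvd_one a2)
    have hr1 : |r| ≤ 1 := by rcases Int.isUnit_iff.1 hr with rfl | rfl <;> simp
    have k1 : Ht ((if v then X - 1 else 1) * (if w then X + 1 else 1) * F q b s t) 2 := by
      cases v <;> cases w
      · simpa using up h0
      · simpa using h3
      · simpa using h1
      · simpa using h4
    have k2 := htC r _ 1 2 hr1 k1 i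
    rw [one_mul] at k2
    rw [mul_assoc (C r), mul_assoc (C r)]
    exact k2

end Pool.Agent.Results.MP_0523aa_nt.Full
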